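import Mathlib
import Pool.Agent.P.MP_6bd6f6_an.Core

/-!
A non-minimal M-system (even with dense periodic points) that is not Li-Yorke sensitive.
-/

open Filter Topology Set

namespace Pool.Agent.Results.MP_6bd6f6_an.NotLiYorkeSensitive

/-- `M` is a minimal set of `T`: nonempty, closed, `T M ⊆ M`, and no proper nonempty closed
subset has the same property. -/
def IsMinimalSet {X : Type} [MetricSpace X] (T : X → X) (M : Set X) : Prop :=
  M.Nonempty ∧ IsClosed M ∧ Set.MapsTo T M M ∧
    ∀ N : Set X, N ⊆ M → N.Nonempty → IsClosed N → Set.MapsTo T N N → N = M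

/-- Li-Yorke sensitivity. -/
def LiYorkeSensitive {X : Type} [MetricSpace X] (T : X → X) : Prop :=
  ∃ δ : ℝ, 0 < δ ∧ ∀ x : X, ∀ U ∈ nhds x, ∃ y ∈ U,
    Filter.liminf (fun n : ℕ => dist (T^[n] x) (T^[n] y)) Filter.atTop = 0 ∧
    δ < Filter.limsup (fun n : ℕ => dist (T^[n] x) (T^[n] y)) Filter.atTop

lemma minimal_of_periodic {X : Type} [MetricSpace X] (T : X → X) {x : X}
    (hx : x ∈ Function.periodicPts T) : ∃ M, IsMinimalSet T M ∧ x ∈ M := by
  obtain ⟨q, hq, hper⟩ := hx
  refine ⟨range fun n => T^[n] x, ⟨⟨x, 0, rfl⟩, ?_, ?_, ?_⟩, 0, rfl⟩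
  · apply Set.Finite.isClosed
    refine ((Set.finite_lt_nat q).image fun n => T^[n] x).subset ?_
    rintro _ ⟨n, rfl⟩
    exact ⟨n % q, Nat.mod_lt n hq, hper.iterate_mod_apply n⟩
  · rintro _ ⟨n, rfl⟩
    exact ⟨n + 1, Function.iterate_succ_apply' T n x⟩
  · rintro N hN ⟨z, hz⟩ - hmaps
    obtain ⟨k, rfl⟩ := hN hz
    refine Subset.antisymm hN ?_
    rintro _ ⟨n, rfl⟩
    have h1 : T^[n + q * k - k] (T^[k] x) ∈ N := hmaps.iterate _ hz
    have h2 : k ≤ q * k := Nat.le_mul_of_pos_left k hq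
    rw [← Function.iterate_add_apply, show n + q * k - k + k = n + q * k by omega,
      Function.iterate_add_apply, (hper.mul_const k).eq] at h1
    exact h1

open Pool.Agent.P.MP_6bd6f6_an in
theorem result :
    ∃ (X : Type) (_ : MetricSpace X) (_ : CompactSpace X) (T : X → X),
      Nontrivial X ∧ (∀ x : X, ¬ IsOpen ({x} : Set X)) ∧
      Continuous T ∧ Function.Surjective T ∧
      (∀ U V : Set X, IsOpen U → U.Nonempty → IsOpen V → V.Nonempty →
        ∃ n : ℕ, (U ∩ T^[n] ⁻¹' V).Nonempty) ∧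
      Dense (Function.periodicPts T) ∧
      Dense {x : X | ∃ M : Set X, IsMinimalSet T M ∧ x ∈ M} ∧
      ¬ IsMinimalSet T Set.univ ∧
      ¬ LiYorkeSensitive T := by
  let X : Type := closure PP
  have hmaps : MapsTo sh (closure PP) (closure PP) :=
    MapsTo.closure (fun _ h => sh_mem_PP h) continuous_sh
  let T : X → X := hmaps.restrict
  have hcomp : CompactSpace X := isCompact_iff_compactSpace.1 isClosed_closure.isCompact
  let _ : MetricSpace X := TopologicalSpace.metrizableSpaceMetric X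
  have hT : Continuous T := continuous_sh.restrict hmaps
  have hit : ∀ (n : ℕ) (x : X), ((T^[n] x : X) : Arr) = sh^[n] x := by
    intro n
    induction n with
    | zero => intro x; rfl
    | succ n ih =>
      intro x
      rw [Function.iterate_succ_apply', Function.iterate_succ_apply', ← ih]
      rfl
  let x0 : X := ⟨xs, xs_mem_closure⟩
  let z0 : X := ⟨fun _ => false, subset_closure zero_mem_PP⟩
  have hxz : x0 ≠ z0 := by
    intro h
    have := congrFun (congrArg Subtype.val h) (0, 0)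
    simp [x0, z0, xs] at this
  have hcyl : ∀ U : Set X, IsOpen U → U.Nonempty → ∃ p ∈ PP, ∃ N, ∀ r : X,
      (∀ i ≤ N, ∀ l ≤ N, r.1 (i, l) = p (i, l)) → r ∈ U := by
    rintro U hU ⟨u, hu⟩
    obtain ⟨U', hU', rfl⟩ := isOpen_induced_iff.1 hU
    obtain ⟨p, hpU, hp⟩ := mem_closure_iff.1 u.2 U' hU' hu
    obtain ⟨N, hN⟩ := exists_cyl hU' hpU
    exact ⟨p, hp, N, fun r hr => hN r.1 hr⟩
  have hdense : Dense (Function.periodicPts T) := by
    rw [dense_iff_inter_open]
    intro U hU hne
    obtain ⟨p, hp, N, hN⟩ := hcyl U hU hne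
    obtain ⟨q, hq, hper⟩ := periodic_of_mem_PP hp
    refine ⟨⟨p, subset_closure hp⟩, hN _ fun _ _ _ _ => rfl, q, hq, ?_⟩
    apply Subtype.ext
    rw [hit]
    exact hper
  refine ⟨X, inferInstance, hcomp, T, ⟨x0, z0, hxz⟩, ?_, hT, ?_, ?_, hdense, ?_, ?_, ?_⟩
  · intro x hx
    obtain ⟨p, hp, N, hN⟩ := hcyl _ hx (singleton_nonempty x)
    obtain ⟨M0, hM0⟩ := high_rows hp
    obtain ⟨y, hy, hg⟩ := hp.1
    obtain ⟨r, hr, n, h1, -, i, M, hM, hri⟩ := glue hy hy hg hg N M0
    have e1 : (⟨p, subset_closure hp⟩ : X) = x := hN _ fun _ _ _ _ => rfl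
    have e2 : (⟨r, subset_closure hr⟩ : X) = x := hN _ fun i hi l _ => h1 i hi l
    have e3 : r = p := congrArg Subtype.val (e2.trans e1.symm)
    rw [e3, hM0 i M hM] at hri
    exact absurd hri (by simp)
  · have hcl : IsClosed (range T) := (isCompact_range hT).isClosed
    have hsub : Function.periodicPts T ⊆ range T := by
      rintro x ⟨q, hq, hper⟩
      refine ⟨T^[q - 1] x, ?_⟩
      rw [← Function.iterate_succ_apply' T, show (q - 1).succ = q by omega]
      exact hper
    rw [← range_eq_univ, ← hcl.closure_eq]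
    exact (hdense.mono hsub).closure_eq
  · intro U V hU hUn hV hVn
    obtain ⟨p, hp, N1, hN1⟩ := hcyl U hU hUn
    obtain ⟨q, hq, N2, hN2⟩ := hcyl V hV hVn
    obtain ⟨yp, hyp, hgp⟩ := hp.1
    obtain ⟨yq, hyq, hgq⟩ := hq.1
    obtain ⟨r, hr, n, h1, h2, -⟩ := glue hyp hyq hgp hgq (max N1 N2) 0
    refine ⟨n, ⟨r, subset_closure hr⟩, hN1 _ fun i hi l _ => h1 i (le_max_of_le_left hi) l,
      hN2 _ fun i hi l _ => ?_⟩
    rw [hit, sh_iter]
    exact h2 i (le_max_of_le_right hi) l
  · exact hdense.mono fun x hx => minimal_of_periodic T hx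
  · rintro ⟨-, -, -, h⟩
    have h1 := h {z0} (subset_univ _) (singleton_nonempty _) isClosed_singleton (by
      rintro _ rfl
      rfl)
    have h2 : x0 ∈ ({z0} : Set X) := h1 ▸ mem_univ x0
    exact hxz h2
  · rintro ⟨δ, hδ, h⟩
    have hU : {z : X | z.1 (0, 0) = true} ∈ 𝓝 x0 := by
      apply IsOpen.mem_nhds
      · have hc : Continuous fun z : X => z.1 (0, 0) :=
          (continuous_apply (0, 0)).comp continuous_subtype_val
        exact (isOpen_discrete {true}).preimage hc
      · simp [x0, xs]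
    obtain ⟨y, hy, hinf, hsup⟩ := h x0 _ hU
    by_cases hyx : y = x0
    · subst hyx
      simp at hsup
      linarith
    · have hne : y.1 ≠ xs := fun h => hyx (Subtype.ext h)
      obtain ⟨k, hk⟩ := stays_away y.2 hy hne
      let C : Set (X × X) := ⋃ i ∈ Set.Iic (2 ^ k), {w : X × X | w.1.1 (i, k) ≠ w.2.1 (i, k)}
      have hC : IsClosed C := by
        refine (Set.finite_Iic _).isClosed_biUnion fun i _ => ?_
        have hc : Continuous fun w : X × X => (w.1.1 (i, k), w.2.1 (i, k)) :=
          (((continuous_apply (i, k)).comp continuous_subtype_val).comp continuous_fst).prodMk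
            (((continuous_apply (i, k)).comp continuous_subtype_val).comp continuous_snd)
        exact (isClosed_discrete {b : Bool × Bool | b.1 ≠ b.2}).preimage hc
      have hmem : ∀ n, (T^[n] x0, T^[n] y) ∈ C := by
        intro n
        obtain ⟨i, hi, hne⟩ := hk n
        simp only [C, mem_iUnion]
        refine ⟨i, hi, ?_⟩
        show (T^[n] x0).1 (i, k) ≠ (T^[n] y).1 (i, k)
        rw [hit, hit]
        exact hne
      obtain ⟨w, hwC, hmin⟩ := hC.isCompact.exists_isMinOn ⟨_, hmem 0⟩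
        (continuous_dist (α := X)).continuousOn
      have hpos : 0 < dist w.1 w.2 := by
        rw [dist_pos]
        intro he
        simp only [C, mem_iUnion] at hwC
        obtain ⟨i, -, hi⟩ := hwC
        exact hi (by rw [he])
      have hbd : IsBoundedUnder (· ≤ ·) atTop fun n : ℕ => dist (T^[n] x0) (T^[n] y) :=
        isBoundedUnder_of ⟨Metric.diam (univ : Set X), fun n =>
          Metric.dist_le_diam_of_mem isCompact_univ.isBounded (mem_univ _) (mem_univ _)⟩
      have hle : dist w.1 w.2 ≤ liminf (fun n : ℕ => dist (T^[n] x0) (T^[n] y)) atTop :=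
        le_liminf_of_le hbd.isCoboundedUnder_ge (Eventually.of_forall fun n => hmin (hmem n))
      linarith

end Pool.Agent.Results.MP_6bd6f6_an.NotLiYorkeSensitive
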